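import Pool.Agent.Q82.QC.Stm

/-!
# Project QD: a non-spherical concentration point beside a polyharmonic blow-up point in `ℝ⁴`

The profile is a radial entire solution `F (|y|²)` of `Δ² η = 6 exp (4 η)` with mass between `8π²` and
`16π²`; `F s = - a s + O(log s)`. The ansatz is
`W = - β PP + (F (L²|x-x0|²) + a L²|x-x0|²) + log L` with `L = N⁵`, `4 β = a L²`, where `PP ≥ 0` is
biharmonic with the zeros `x0 = (1,0,0,0)`, `x1 = (-1,0,0,0)`. The domain is the ball of radius `3/2`.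
`B = Δ² W`, `gg` is a cut-off version of `6 exp (4W) - B`. Final sequences: `u = W + pot e gg`,
`V = (B + mol e gg) exp (-4u)` (as in project QC, whose definitions and theorems are used).

Every part is a `Prop`; a job proves `S_xx`, possibly from some other `S_yy` named in the job.
-/

set_option autoImplicit false

open MeasureTheory Filter Topology Real InnerProductSpace Laplacian Set
open Pool.Agent.Q82.QC (E Om pp lg bd pot mol Ctl HolderConv S_MASS S_POT0 S_POT3 S_POTH S_POTL S_MOL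
  S_MOLI)

namespace Pool.Agent.Q82.QD

/-! ### Definitions -/

/-- The inverse of the radial Laplacian of `ℝ⁴`, in the variable `s = |y|²`. -/
noncomputable def Lop (f : ℝ → ℝ) (s : ℝ) : ℝ :=
  ∫ t in (0 : ℝ)..s, ∫ θ in (0 : ℝ)..1, θ / 4 * f (θ * t)

noncomputable def qq : ℝ := 1 / 8000

/-- `F` is (the restriction to `s ≥ 0` of) the profile. -/
def Prof (F : ℝ → ℝ) : Prop :=
  Continuous F ∧
  (∀ s, 0 ≤ s → F s = Real.log 2 - (1 + qq) * s + Lop (Lop (fun t => 6 * Real.exp (4 * F t))) s) ∧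
  ∀ s, 0 ≤ s → F s ≤ Real.log 2 - Real.log (1 + s) - qq * s

/-- `∫_0^t σ f(σ) dσ` for `f = 6 exp (4F)`. -/
noncomputable def MM (F : ℝ → ℝ) (t : ℝ) : ℝ := ∫ σ in (0 : ℝ)..t, σ * (6 * Real.exp (4 * F σ))

/-- `∫_t^∞ M(τ)/(4τ²) dτ`. -/
noncomputable def Rr (F : ℝ → ℝ) (t : ℝ) : ℝ := ∫ τ in Ioi t, MM F τ / (4 * τ ^ 2)

/-- `s⁻² ∫_0^s (t/4) R(t) dt`. -/
noncomputable def Hh (F : ℝ → ℝ) (s : ℝ) : ℝ := (s ^ 2)⁻¹ * ∫ t in (0 : ℝ)..s, t / 4 * Rr F t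

/-- The profile together with its behaviour at infinity. -/
def Dat (F : ℝ → ℝ) (a C : ℝ) : Prop :=
  Prof F ∧ 0 < a ∧ 0 < C ∧ (∀ s, 1 ≤ s → F s + a * s ≤ C - 1 / 2 * Real.log s) ∧
  (∀ s, 1 ≤ s → |F s + a * s| ≤ C * (1 + Real.log s)) ∧
  ∀ j : ℕ, 1 ≤ j → j ≤ 4 → ∀ s, 1 ≤ s → |iteratedDeriv j (fun s => F s + a * s) s| ≤ C / s ^ j

/-- The point of concentration. -/
noncomputable def x0 : E := EuclideanSpace.single 0 1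

/-- The point of polyharmonic blow-up. -/
noncomputable def x1 : E := EuclideanSpace.single 0 (-1)

/-- Minus the limit profile: `|z²-1|² - |w|⁴ + 4|w|²` for `z = x₀ + i x₁`, `w = x₂ + i x₃`. -/
noncomputable def PP (x : E) : ℝ :=
  (x 0 ^ 2 + x 1 ^ 2) ^ 2 - 2 * (x 0 ^ 2 - x 1 ^ 2) + 1 - (x 2 ^ 2 + x 3 ^ 2) ^ 2 +
    4 * (x 2 ^ 2 + x 3 ^ 2)

noncomputable def bet (a N : ℝ) : ℝ := a * (N ^ 5) ^ 2 / 4

/-- The approximate solution. -/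
noncomputable def W (F : ℝ → ℝ) (a N : ℝ) (x : E) : ℝ :=
  -(bet a N) * PP x + (F ((N ^ 5) ^ 2 * ‖x - x0‖ ^ 2) + a * ((N ^ 5) ^ 2 * ‖x - x0‖ ^ 2)) +
    Real.log (N ^ 5)

/-- Its bilaplacian. -/
noncomputable def B (F : ℝ → ℝ) (N : ℝ) (x : E) : ℝ :=
  (N ^ 5) ^ 4 * (6 * Real.exp (4 * F ((N ^ 5) ^ 2 * ‖x - x0‖ ^ 2)))

/-- The mass of the profile. -/
noncomputable def mm (F : ℝ → ℝ) : ℝ := ∫ y : E, 6 * Real.exp (4 * F (‖y‖ ^ 2))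

/-- A cut-off: `1` for `‖x‖ ≤ 3/2`, `0` for `‖x‖ ≥ 5/3`. -/
noncomputable def chi (x : E) : ℝ := max 0 (min 1 (10 - 6 * ‖x‖))

/-- A cut-off: `0` for `‖x - x0‖ ≤ 1/N⁴`, `1` for `‖x - x0‖ ≥ 2/N⁴`. -/
noncomputable def psi (N : ℝ) (x : E) : ℝ := max 0 (min 1 (N ^ 4 * ‖x - x0‖ - 1))

/-- The source of the correction. -/
noncomputable def gg (F : ℝ → ℝ) (a N : ℝ) (x : E) : ℝ :=
  chi x * psi N x * (6 * Real.exp (4 * W F a N x) - B F N x)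

/-- The blow-up at `p` is spherical (for the limit potential `6`). -/
def Sph (u : ℕ → E → ℝ) (p : E) : Prop :=
  ∃ (x : ℕ → E) (s : ℕ → ℕ), Tendsto x atTop (𝓝 p) ∧
    Tendsto (fun k => 2 * Real.exp (-u k (x k))) atTop (𝓝 0) ∧ StrictMono s ∧
    ∀ K : Set E, IsCompact K → ∀ η : ℝ, 0 < η → ∀ᶠ j in atTop, ∀ y ∈ K,
      |u (s j) (x (s j) + (2 * Real.exp (-u (s j) (x (s j)))) • y) +
        Real.log (2 * Real.exp (-u (s j) (x (s j)))) - Real.log (2 / (1 + ‖y‖ ^ 2))| ≤ η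

/-! ### The profile -/

/-- Elementary properties of `Lop`. Differentiation: fundamental theorem of calculus, the inner
integral is continuous in `t` (`intervalIntegral.continuous_parametric_intervalIntegral_of_continuous`
or similar). The formula: substitution `t = θ s`. -/
def S_LOP : Prop := ∀ f : ℝ → ℝ, Continuous f → Continuous (Lop f) ∧
  (∀ s, HasDerivAt (Lop f) (∫ θ in (0 : ℝ)..1, θ / 4 * f (θ * s)) s) ∧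
  (∀ s, 0 < s → ∫ θ in (0 : ℝ)..1, θ / 4 * f (θ * s) = (s ^ 2)⁻¹ * ∫ t in (0 : ℝ)..s, t / 4 * f t) ∧
  ∀ g : ℝ → ℝ, Continuous g → ∀ s, 0 ≤ s → (∀ t, 0 ≤ t → t ≤ s → f t ≤ g t) → Lop f s ≤ Lop g s

/-- The spherical solution. Proof from `S_LOP`: for `s > 0`, `(s²)⁻¹ ∫_0^s (t/4) 96/(1+t)⁴ dt =
4 (s+3)/(1+s)³` (primitive `24 (-1/(2(1+t)²) + 1/(3(1+t)³))`), so `Lop (96/(1+|t|)⁴) s = 8 - (4s+8)/(1+s)²` for
`s ≥ 0` (same derivative for `s > 0`, continuous, equal at `0`), and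
`(s²)⁻¹ ∫_0^s (t/4) (8 - (4t+8)/(1+t)²) dt = 1 - 1/(1+s)`, the derivative of `s - log (1+s)`. -/
def S_SPH : Prop := ∀ s : ℝ, 0 ≤ s →
  Lop (Lop (fun t => 96 / (1 + |t|) ^ 4)) s = s - Real.log (1 + s)

/-- Existence of the profile. From `S_LOP`, `S_SPH` by monotone iteration:
`u⁰ s = log 2 - log (1+|s|)`, `uⁿ⁺¹ s = log 2 - (1+qq)|s| + Lop (Lop (6 exp (4uⁿ))) |s|`. All `uⁿ` are
continuous and even, `u¹ s = u⁰ s - qq |s| ≤ u⁰ s` by `S_SPH` (`6 exp (4u⁰) = 96/(1+|s|)⁴`), hence by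
monotonicity `uⁿ` decreases in `n`; `uⁿ s ≥ log 2 - (1+qq)|s|`. Let `F = lim uⁿ`. By dominated
convergence (`0 ≤ 6 exp (4uⁿ) ≤ 96`) the equation holds in the limit for `s ≥ 0` (also for `|s|`
in place of `s`), and then `F` is continuous as `Lop` of a bounded measurable function is
continuous (Lipschitz on bounded sets). `F ≤ u¹` gives the last property. -/
def S_EXF : Prop := ∃ F : ℝ → ℝ, Prof F

/-- Lower bound. From `S_LOP`, `S_SPH`. `d s = log 2 - log (1+s) - F s ≥ 0` satisfies (for `s ≥ 0`)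
`d s = qq s + Lop (Lop (96/(1+t)⁴ (1 - exp (-4d)))) s ≤ qq s + Lop (Lop (384 |d|)) s`. Put
`D s = qq exp (3s)`. For `c = 3` and `s ≥ 0`: `Lop (exp (3t)) s ≤ (exp (3s) - 1)/24 ≤ exp (3s)/24` as
`∫ θ/4 exp (3θt) ≤ exp (3t)/8`, so `384 Lop (Lop D) s ≤ (2/3) qq (exp (3s) - 1)` and
`qq s + 384 Lop (Lop D) s < D s`. If `d > D` somewhere, let `s*` be the infimum of such `s ≥ 0`; then
`d ≤ D` on `[0,s*]` and `d s* = D s*` by continuity, but `d s* ≤ qq s* + 384 Lop (Lop D) s* < D s*`. -/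
def S_LOW : Prop := ∀ F, Prof F → ∀ s, 0 ≤ s →
  Real.log 2 - Real.log (1 + s) - qq * Real.exp (3 * s) ≤ F s

/-- From `S_LOW`: on `[0,2]`, `6 exp (4F) ≥ exp (-4 qq e⁶) 96/(1+t)⁴`, `4 qq e⁶ ≤ 0.21`, and
`∫_0^2 96 t/(1+t)⁴ dt = 320/27`. -/
def S_MF : Prop := ∀ F, Prof F → 9 ≤ MM F 2

/-- Smoothness of `Lop f` on `[0,∞)`. First: if `f` is continuous on `ℝ` and `ContDiffOn ℝ n f (Ici 0)`
then for every `i : ℕ` the function `s ↦ ∫ θ in 0..1, θ^i * f (θ s)` is `ContDiffOn ℝ n` on `Ici 0`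
(induction on `n`, `contDiffOn_succ_iff_derivWithin`, differentiation under the integral with
`derivWithin f (Ici 0)`; one-sided derivative at `0`: `hasDerivWithinAt` of a parametric integral, or
use the primitive: for `s > 0` the derivative exists by dominated convergence, it is continuous up
to `0`, and `hasDerivWithinAt_Ici_of_tendsto_deriv`). Then `Lop f` has this derivative with `i = 1`. -/
def S_LSM : Prop := ∀ f : ℝ → ℝ, Continuous f → ∀ n : ℕ, ContDiffOn ℝ n f (Ici 0) →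
  ContDiffOn ℝ (n + 1 : ℕ) (Lop f) (Ici 0)

/-- From `S_LSM`, `S_LOP` (continuity), bootstrapping. -/
def S_SMF : Prop := ∀ F, Prof F → ∀ n : ℕ, ContDiffOn ℝ n F (Ici 0)

/-- The Laplacian of a radial function. From `S_LSM`, `S_LOP`. Smoothness by `ContDiffOn.comp` with
`y ↦ ‖y‖²` mapping `univ` into `Ici 0`. With `G = Lop f`, for `s > 0`: `s² G' = ∫_0^s (t/4) f`, so
`4 s G'' + 8 G' = f`; for `y ≠ 0`, `Δ (G (‖y‖²)) = 4 ‖y‖² G'' + 8 G'` (`4` coordinates); at `y = 0` by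
continuity of both sides. (See `Pool.Agent.Q16.QC_LAP` for a similar computation.) -/
def S_RAD : Prop := ∀ f : ℝ → ℝ, Continuous f → (∀ n : ℕ, ContDiffOn ℝ n f (Ici 0)) →
  (∀ n : ℕ, ContDiff ℝ n (fun y : E => Lop f (‖y‖ ^ 2))) ∧
  ∀ y : E, Δ (fun y : E => Lop f (‖y‖ ^ 2)) y = f (‖y‖ ^ 2)

/-- From `S_RAD`, `S_SMF`, `S_LSM`, `S_LOP`: `F (‖y‖²) = log 2 - (1+qq) ‖y‖² + Lop (Lop f) (‖y‖²)`, whose
Laplacian is `-8 (1+qq) + Lop f (‖y‖²)`. -/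
def S_ETA : Prop := ∀ F, Prof F → (∀ n : ℕ, ContDiff ℝ n (fun y : E => F (‖y‖ ^ 2))) ∧
  ∀ y : E, Δ (Δ (fun y : E => F (‖y‖ ^ 2))) y = 6 * Real.exp (4 * F (‖y‖ ^ 2))

/-- The derivative of the profile. From `S_LOP`. With `f = 6 exp (4F) ≤ 96/(1+σ)⁴`, `0 ≤ M(τ) ≤ 48 τ²`
and `M ≤ 96`, so `M(τ)/(4τ²)` is integrable on `(0,∞)` and `Lop f t = ∫_0^t M(τ)/(4τ²) dτ = R(0) - R(t)`;
`F' s = -(1+qq) + (s²)⁻¹ ∫_0^s (t/4) Lop f t dt = -(1+qq) + R(0)/8 - H(s)`, `a = 1 + qq - R(0)/8`. -/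
def S_ASY1 : Prop := ∀ F, Prof F → ∃ a : ℝ, ∀ s, 0 < s → HasDerivAt F (-(a + Hh F s)) s

/-- Bounds of `H`. `M` is nondecreasing, `0 ≤ M ≤ 96`, so `0 ≤ R(t) ≤ 24/t`, `R ≤ R(0)`, `0 ≤ H(s) ≤ 6/s`.
If `M(2) ≥ 9` then for `t ≥ 2`, `R(t) ≥ 9/(4t)`, so `H(s) ≥ 9 (s-2)/(16 s²) ≥ 1/(2s)` for `s ≥ 18`. -/
def S_ASY2 : Prop := ∀ F, Prof F → 9 ≤ MM F 2 → (∀ s, 0 < s → 0 ≤ Hh F s ∧ Hh F s ≤ 6 / s) ∧
  ∀ s, 18 ≤ s → 1 / (2 * s) ≤ Hh F s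

/-- Derivatives of `H`. `s H' + 2H = R/4`, `R' = -M/(4s²)`, `M' = s f` with `f = 6 exp (4F) ≤ 96/(1+s)⁴`;
with `|H| ≤ 6/s`, `|R| ≤ 24/s`, `|M| ≤ 96`: `H' = (R/4 - 2H)/s = O(s⁻²)`, and so on. (One can also write
`H = s⁻² ∫_0^s`, and `H', H'', H'''` as explicit expressions in `H, R, M, f`; `S_SMF` is not needed
for three derivatives, only continuity of `F`.) -/
def S_ASY3 : Prop := ∀ F, Prof F → ∃ C : ℝ, 0 < C ∧ (∀ j : ℕ, j ≤ 3 → ∀ s, 1 ≤ s →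
  |iteratedDeriv j (Hh F) s| ≤ C / s ^ (j + 1))

/-- From `S_MF`, `S_ASY1`, `S_ASY2`, `S_ASY3`, `S_SMF`. `Z s = F s + a s` has derivative `-H`. So
`|Z s| ≤ |Z 1| + 6 log s`, `Z s ≤ Z 18 - (1/2) log (s/18)` for `s ≥ 18`, and `Z` is nonincreasing;
`a > 0`: `-a s + Z s ≤ log 2 - qq s`, `Z s ≥ -C (1 + log s)`, `s → ∞` gives `a ≥ qq`. The derivatives
of `Z` of order `j ≥ 1` are the derivatives of `-H` of order `j - 1` (on `s > 0`, an open set). -/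
def S_DAT : Prop := ∀ F, Prof F → ∃ a C : ℝ, Dat F a C

/-- Derivatives of radial functions in `E`. Proof: fix `y` with `‖y‖ = ρ ≥ 1`. Put
`g s = h (ρ² s) - h (ρ²)`; for `s = 1`, `|iteratedDeriv j g 1| = ρ^(2j) |h^(j) (ρ²)| ≤ C` for `1 ≤ j ≤ 4`, and
`g 1 = 0`. With `z = y/ρ`, the function `z ↦ g (‖z‖²)` has derivatives of order `m ≤ 4` at `‖z‖ = 1` bounded
by `m! C' D^m` (`norm_iteratedFDeriv_comp_le` needs `ContDiff`; use the `Within` version on open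
sets `{z ≠ 0}`, `Ioi 0`, or multiply by a cut-off), where `‖z‖²` has bounded derivatives on the unit
sphere. Scaling back: `iteratedFDeriv m (fun y => h (‖y‖²)) y = ρ^(-m) iteratedFDeriv m (fun z => h (ρ²‖z‖²)) z`. -/
def S_ZE : Prop := ∀ (h : ℝ → ℝ) (C : ℝ), (∀ n : ℕ, ContDiffOn ℝ n h (Ioi 0)) →
  (∀ j : ℕ, 1 ≤ j → j ≤ 4 → ∀ s, 1 ≤ s → |iteratedDeriv j h s| ≤ C / s ^ j) →
  ∃ C' : ℝ, 0 < C' ∧ ∀ m : ℕ, 1 ≤ m → m ≤ 4 → ∀ y : E, 1 ≤ ‖y‖ →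
    ‖iteratedFDeriv ℝ m (fun y : E => h (‖y‖ ^ 2)) y‖ ≤ C' / ‖y‖ ^ m

/-- The mass of the profile. From `S_LOW`, `S_MASS` (with `e = 1`): `6 exp (4F(‖y‖²)) < bd 1 y` for
`y ≠ 0`, so the mass is `< 16π²`. Lower bound: for `‖y‖² ≤ 2`, `6 exp (4F) ≥ exp (-0.21) bd 1 y`, and
`∫ y in ball 0 √2, bd 1 y = 16 π² · 20/27` (polar coordinates as in `Pool.Agent.Q62.QC_MASS`; the radial
integral is `2π² ∫_0^√2 96 r³/(1+r²)⁴ dr`, primitive `-96 (1 + 3 r²)/(12 (1+r²)³)`), total at least `9π²`. -/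
def S_MM : Prop := ∀ F, Prof F → Integrable (fun y : E => 6 * Real.exp (4 * F (‖y‖ ^ 2))) ∧
  8 * π ^ 2 < mm F ∧ mm F < 16 * π ^ 2

/-! ### The ansatz -/

/-- The polynomial. With `z = 1 + ξ`: `|z²-1|² = |ξ|²|ξ+2|²` and
`PP x - 4 ‖x-x0‖² = 4 |ξ|² Re ξ + |ξ|⁴ - |w|⁴`. If `x 0 ≥ 0` then `|z+1| ≥ 1`; `|w|² ≤ 25/9`, so
`|w|²(4-|w|²) ≥ |w|²`. `Δ (Δ PP) = 0`: second derivatives of the polynomial along the coordinates;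
`Δ PP = 16(x 0²+x 1²) - 16 (x 2²+x 3²) + 16`. -/
def S_PP : Prop := (∀ n : ℕ, ContDiff ℝ n PP) ∧ (∀ x, Δ (Δ PP) x = 0) ∧
  (∀ x : E, ‖x‖ ≤ 5 / 3 → 0 ≤ x 0 → ‖x - x0‖ ^ 2 ≤ PP x) ∧
  (∀ x : E, ‖x‖ ≤ 5 / 3 → x 0 ≤ 0 → ‖x - x1‖ ^ 2 ≤ PP x) ∧
  ∀ x : E, ‖x - x0‖ ≤ 1 → |PP x - 4 * ‖x - x0‖ ^ 2| ≤ 5 * ‖x - x0‖ ^ 3

/-- From `S_ETA`, `S_PP`: `F ((N⁵)² ‖x-x0‖²) = (fun y => F (‖y‖²)) (N⁵ • (x - x0))`; scaling and translation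
of the Laplacian; `Δ (Δ ‖x-x0‖²) = 0`. -/
def S_WL2 : Prop := ∀ F, Prof F → ∀ a N : ℝ, 0 < N →
  (∀ n : ℕ, ContDiff ℝ n (W F a N)) ∧ ∀ x, Δ (Δ (W F a N)) x = B F N x

/-- Near `x0` the approximate solution is the profile. From `S_PP`: `B F N x = 6 exp (4W) · exp (t)` with
`t = 4 bet (PP x - 4‖x-x0‖²)`, `|t| ≤ 5 a N¹⁰ ‖x-x0‖³ ≤ 40 a N⁻²`. -/
def S_RAT2 : Prop := ∀ (F : ℝ → ℝ) (a : ℝ), 0 < a → ∀ η : ℝ, 0 < η → ∀ᶠ N : ℝ in atTop, ∀ x : E,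
  ‖x - x0‖ ≤ 2 / N ^ 4 → |B F N x - 6 * Real.exp (4 * W F a N x)| ≤ η * (6 * Real.exp (4 * W F a N x))

/-- Away from `x0`. From `S_PP`. Let `L = N⁵`, `r = ‖x-x0‖ ≥ 1/N⁴`, so `L² r² ≥ N² ≥ 1` and `4 bet = a L²`,
`exp (4W) = L⁴ exp (-a L² PP) exp (4 (F + a ·)(L² r²))`. (1) `x 0 ≥ 0`: at most
`L⁴ exp (-a L² r²) exp (4C) ≤ e^{4C} N²⁰ exp (-a N²)`. (2) `x 0 ≤ 0`: `r ≥ 1` and
`exp (4 (F + a ·)(L² r²)) ≤ exp (4C - 2 log (L²)) = e^{4C} L⁻⁴`, so at most `e^{4C} exp (-a L² ‖x-x1‖²)`.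
`B ≤ 96 N²⁰ exp (-4 qq N²)` by the last property of `Prof`. -/
def S_WB2 : Prop := ∀ (F : ℝ → ℝ) (a C : ℝ), Dat F a C → ∃ C' N0 : ℝ, 0 < C' ∧ 1 ≤ N0 ∧
  ∀ N : ℝ, N0 ≤ N → ∀ x : E, ‖x‖ ≤ 5 / 3 → 1 / N ^ 4 ≤ ‖x - x0‖ →
  Real.exp (4 * W F a N x) ≤ C' * (Real.exp (-(a * N ^ 10 * ‖x - x1‖ ^ 2)) + Real.exp (-N)) ∧
  B F N x ≤ C' * Real.exp (-N)

/-- Dominated convergence (for `x ≠ x1` the integrand tends to `0`, it is at most `2`). -/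
def S_TH2 : Prop := ∀ a : ℝ, 0 < a → Tendsto (fun N : ℝ => ∫ x in Metric.closedBall (0 : E) (5 / 3),
  (Real.exp (-(a * N ^ 10 * ‖x - x1‖ ^ 2)) + Real.exp (-N))) atTop (𝓝 0)

/-- Control of the source. From `S_WB2`, `S_TH2`. `gg = 0` unless `‖x‖ < 5/3` and `‖x-x0‖ > 1/N⁴`, there
`|gg| ≤ 6 exp (4W) + B ≤ 7 C' (exp (-(a N¹⁰ ‖x-x1‖²)) + exp (-N)) ≤ 14 C'`; `‖y - pp‖ ≤ 12` there; the
support is contained in `‖x‖ ≤ 5/3`, contained in `Om`. -/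
def S_CTL2 : Prop := ∀ (F : ℝ → ℝ) (a C : ℝ), Dat F a C → ∃ C' : ℝ, 0 < C' ∧ ∀ δ : ℝ, 0 < δ →
  ∀ᶠ N : ℝ in atTop, Ctl C' δ (gg F a N)

/-- From `S_RAT2`: for `‖x‖ ≤ 3/2`, `chi x = 1` and `B + gg - 6 exp (4W) = (1 - psi) (B - 6 exp (4W))`. -/
def S_APP2 : Prop := ∀ (F : ℝ → ℝ) (a : ℝ), 0 < a → ∀ η : ℝ, 0 < η → ∀ᶠ N : ℝ in atTop, ∀ x : E,
  ‖x‖ ≤ 3 / 2 → |B F N x + gg F a N x - 6 * Real.exp (4 * W F a N x)| ≤
    η * (6 * Real.exp (4 * W F a N x))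

/-- The mass of `B`. Proof: substitution `y = N⁵ • (x - x0)` in `∫ 6 exp (4F(‖y‖²))`, and for the tail the
complement of the ball of radius `N⁵ r`. (`Integrable` from `S_MM`.) -/
def S_BT : Prop := ∀ F, Prof F → (∀ N : ℝ, 0 < N → Integrable (B F N) ∧ ∫ x, B F N x = mm F) ∧
  ∀ r : ℝ, 0 < r → Tendsto (fun N : ℝ => ∫ x in (Metric.ball x0 r)ᶜ, B F N x) atTop (𝓝 0)

/-- Bounded volume. From `S_WB2`, `S_RAT2`, `S_BT`, `S_MM`, `S_WL2` (continuity of `W`). In the ball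
`‖x-x0‖ ≤ 1/N⁴`: `6 exp (4W) ≤ 2 B`. -/
def S_VOL2 : Prop := ∀ (F : ℝ → ℝ) (a C : ℝ), Dat F a C → ∃ C' : ℝ, ∀ᶠ N : ℝ in atTop,
  ∫ x in Metric.ball (0 : E) (3 / 2), Real.exp (4 * W F a N x) ≤ C'

/-- Choice of the regularisation, from `S_MOL`: `exp (4W)` has a positive minimum on the closed ball. -/
def S_EPS2 : Prop := ∀ F, Prof F → ∀ a N : ℝ, 0 < N → Continuous (gg F a N) →
  HasCompactSupport (gg F a N) → ∀ η : ℝ, 0 < η → ∃ e : ℝ, 0 < e ∧ e ≤ 1 ∧ ∀ x : E, ‖x‖ ≤ 3 / 2 →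
    |mol e (gg F a N) x - gg F a N x| ≤ η * (6 * Real.exp (4 * W F a N x))

/-- Derivatives of the approximate solution away from `x0`. From `S_ZE` (with `h s = F s + a s`), `S_SMF`,
`S_PP`, `S_WL2`. `W + bet PP = Z (L² ‖x-x0‖²) + log L`, `L = N⁵`, and the derivative of order `m` of
`x ↦ Z (L²‖x-x0‖²)` is `L^m (iteratedFDeriv m (fun y => Z (‖y‖²))) (L (x-x0))`, norm at most `C'/‖x-x0‖^m` for
`1 ≤ m ≤ 4` when `L ‖x-x0‖ ≥ 1`. On `K`: `d ≤ ‖x-x0‖ ≤ D`. For the Hölder part: if `‖x-y‖ ≥ d/2` use the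
bound of the third derivative, otherwise the segment stays at distance `≥ d/2` from `x0` and the
mean value inequality with the fourth derivative gives `≤ M ‖x-y‖ ≤ M' ‖x-y‖^α`. -/
def S_CVW2 : Prop := ∀ (F : ℝ → ℝ) (a C : ℝ), Dat F a C → ∀ K : Set E, IsCompact K → x0 ∉ K →
  ∀ α : ℝ, 0 ≤ α → α < 1 → ∃ M : ℝ, 0 < M ∧ ∀ᶠ N : ℝ in atTop,
    (∀ m : ℕ, m ≤ 3 → ∀ x ∈ K,
      ‖iteratedFDeriv ℝ m (W F a N) x + bet a N • iteratedFDeriv ℝ m PP x‖ ≤ M * (1 + Real.log N)) ∧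
    ∀ x ∈ K, ∀ y ∈ K, ‖(iteratedFDeriv ℝ 3 (W F a N) x + bet a N • iteratedFDeriv ℝ 3 PP x) -
      (iteratedFDeriv ℝ 3 (W F a N) y + bet a N • iteratedFDeriv ℝ 3 PP y)‖ ≤
        M * (1 + Real.log N) * ‖x - y‖ ^ α

/-! ### The sequences -/

/-- Convergence of `u / β`. From `S_WL2`, `S_POTL`, `S_CVW2`, `S_POT0`, `S_POT3`, `S_POTH`, `S_PP`. -/
def S_CONV2 : Prop := ∀ (F : ℝ → ℝ) (a C : ℝ), Dat F a C → ∀ (N e : ℕ → ℝ) (h : ℕ → E → ℝ),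
  (∀ k, 0 < N k) → Tendsto N atTop atTop → (∀ k, 0 < e k ∧ e k ≤ 1) → (∃ C' : ℝ, 0 < C' ∧ ∀ δ : ℝ,
    0 < δ → ∀ᶠ k in atTop, Ctl C' δ (h k)) →
  HolderConv (Metric.ball 0 (3 / 2) \ {x0})
    (fun k x => (W F a (N k) x + pot (e k) (h k) x) / bet a (N k)) (fun x => -PP x)

/-- Concentration. From `S_BT`, `S_MOLI`. -/
def S_CONC2 : Prop := ∀ F, Prof F → ∀ (N e : ℕ → ℝ) (h f : ℕ → E → ℝ), (∀ k, 0 < N k) →
  Tendsto N atTop atTop → (∀ k, 0 < e k) → (∀ k, Continuous (h k) ∧ HasCompactSupport (h k)) →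
  Tendsto (fun k => ∫ x, |h k x|) atTop (𝓝 0) →
  (∀ k, ∀ x ∈ Metric.ball (0 : E) (3 / 2), f k x = B F (N k) x + mol (e k) (h k) x) →
  (∀ r : ℝ, 0 < r → r ≤ 1 / 2 →
    Tendsto (fun k => ∫ y in Metric.ball x0 r, f k y) atTop (𝓝 (mm F))) ∧
  ∀ x ∈ Metric.ball (0 : E) (3 / 2), x ≠ x0 → ∃ r0 : ℝ, 0 < r0 ∧ ∀ r : ℝ, 0 < r → r < r0 →
    Tendsto (fun k => ∫ y in Metric.ball x r, f k y) atTop (𝓝 0)

/-- The potentials. From `S_APP2`, `S_POT0`: for `‖x‖ < 3/2`,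
`V = (B + mol) exp (-4W) exp (-4 pot)`, `|(B + mol) exp (-4W) - 6| ≤ 6 (η + 1/(k+1))`, `|pot| ≤ η`. -/
def S_VCONV2 : Prop := ∀ (F : ℝ → ℝ) (a : ℝ), 0 < a → ∀ (N e : ℕ → ℝ), Tendsto N atTop atTop →
  (∀ k, 0 < e k ∧ e k ≤ 1) → (∃ C : ℝ, 0 < C ∧ ∀ δ : ℝ, 0 < δ →
    ∀ᶠ k in atTop, Ctl C δ (gg F a (N k))) →
  (∀ k : ℕ, ∀ x : E, ‖x‖ ≤ 3 / 2 → |mol (e k) (gg F a (N k)) x - gg F a (N k) x| ≤
    1 / ((k : ℝ) + 1) * (6 * Real.exp (4 * W F a (N k) x))) →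
  TendstoUniformlyOn (fun k x => (B F (N k) x + mol (e k) (gg F a (N k)) x) *
    Real.exp (-(4 * (W F a (N k) x + pot (e k) (gg F a (N k)) x)))) (fun _ => 6) atTop
    (Metric.ball 0 (3 / 2))

/-- A mass less than `16π²` excludes a spherical blow-up. From `S_MASS` (`e = 1`). Suppose `Sph u x0` with
`x, s`, `r_k = 2 exp (-u k (x k))`. Choose `R` and `ε > 0` with
`(1-ε) exp (-4ε) ∫ y in ball 0 R, bd 1 y > m` (monotone convergence). For large `j` (`k = s j`):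
`ball (x k) (R r_k) ⊆ ball x0 (1/2)`, `V k ≥ 6 (1-ε)` there, and for `‖y‖ ≤ R`,
`6 exp (4 u k (x k + r_k y)) r_k⁴ ≥ exp (-4ε) 6 (2/(1+‖y‖²))⁴ = exp (-4ε) bd 1 y`; change of variables. -/
def S_NSPH : Prop := ∀ (V u : ℕ → E → ℝ) (m : ℝ), m < 16 * π ^ 2 →
  (∀ k, ContinuousOn (V k) (Metric.ball x0 (1 / 2)) ∧ ContinuousOn (u k) (Metric.ball x0 (1 / 2))) →
  (∀ k, IntegrableOn (fun x => V k x * Real.exp (4 * u k x)) (Metric.ball x0 (1 / 2))) →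
  TendstoUniformlyOn V (fun _ => 6) atTop (Metric.ball x0 (1 / 2)) →
  Tendsto (fun k => ∫ x in Metric.ball x0 (1 / 2), V k x * Real.exp (4 * u k x)) atTop (𝓝 m) →
  ¬ Sph u x0

/-- Everything together. -/
def S_MAIN2 : Prop := ∃ (V u : ℕ → E → ℝ) (b : ℕ → ℝ) (m : ℝ),
  (∀ k, ContinuousOn (V k) (Metric.ball 0 (3 / 2))) ∧
  TendstoUniformlyOn V (fun _ => 6) atTop (Metric.ball 0 (3 / 2)) ∧
  (∀ k, ∀ n : ℕ, ContDiffOn ℝ n (u k) (Metric.ball 0 (3 / 2))) ∧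
  (∀ k, ∀ x ∈ Metric.ball (0 : E) (3 / 2), Δ (Δ (u k)) x = V k x * Real.exp (4 * u k x)) ∧
  (∃ C : ℝ, ∀ k, IntegrableOn (fun x => Real.exp (4 * u k x)) (Metric.ball 0 (3 / 2)) ∧
    ∫ x in Metric.ball (0 : E) (3 / 2), Real.exp (4 * u k x) ≤ C) ∧
  8 * π ^ 2 < m ∧
  (∀ r : ℝ, 0 < r → r ≤ 1 / 2 →
    Tendsto (fun k => ∫ y in Metric.ball x0 r, V k y * Real.exp (4 * u k y)) atTop (𝓝 m)) ∧
  (∀ x ∈ Metric.ball (0 : E) (3 / 2), x ≠ x0 → ∃ r0 : ℝ, 0 < r0 ∧ ∀ r : ℝ, 0 < r → r < r0 →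
    Tendsto (fun k => ∫ y in Metric.ball x r, V k y * Real.exp (4 * u k y)) atTop (𝓝 0)) ∧
  Tendsto b atTop atTop ∧
  HolderConv (Metric.ball 0 (3 / 2) \ {x0}) (fun k x => u k x / b k) (fun x => -PP x) ∧
  ¬ Sph u x0

end Pool.Agent.Q82.QD
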